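import Pool.Agent.Results.MP_5dd4bb_nt.SparseModuli
import Pool.Agent.R728.RC.Core

/-!
# The lower bound in the asymptotic formula for the variance, for all moduli in random residue classes

Let `𝓜` be a set of positive integers with `∑ m ^ (-s) < ∞` (the squareful numbers for `s > 1/2`; the powers of one number
for `s > 0`), and let `X m` be random residues modulo `m`, each value of which has probability at most `A m ^ (-θ)`,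
`θ > s`. No independence is assumed: for instance the residues of a random profinite integer (`θ = 1`), of a random point of
a Cantor set of `p`-adic integers of dimension `θ`, or of `⌊m α⌋` for a random real `α`.

(1) For every `ε > 0` there is `η > 0` such that, if `1 - η < (θ - s) τ`, almost surely `G(x,Q) ≥ x (log Q - 1/2 log x - ε log x)`
for ALL real `x ≥ Q`, for all but finitely many of the pairs `(m, Q)` with `m` in `𝓜`, `Q ^ τ ≤ m` and `Q ≡ X m` modulo `m`.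

(2) If `∑ m ^ (-s) < ∞` for all `s > 0` and `θ = 1` then almost surely for every `ε > 0` there is `τ < 1` such that for all
large `m` in `𝓜` this holds for ALL `Q` with `1 ≤ Q ≤ m ^ (1/τ)`, `Q ≡ X m` modulo `m`.
-/

set_option autoImplicit false

namespace Pool.Agent.Results.MP_5dd4bb_nt.RandomResidues

open Finset Filter Topology MeasureTheory
open SparseModuli (G Exceptional Good Bad not_good exc_mono count)

lemma part1 (ε : ℝ) (hε : 0 < ε) : ∃ η : ℝ, 0 < η ∧ η ≤ 1 ∧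
    ∀ (𝓜 : Set ℕ) (s θ τ A : ℝ) (Ω : Type) [MeasurableSpace Ω] (P : Measure Ω) (X : ∀ m : ℕ, Ω → ZMod m)
      (φ : ∀ m : ℕ, ℕ → ZMod m), (∀ m ∈ 𝓜, 0 < m) → s < θ →
      (Summable fun m : 𝓜 => ((m : ℕ) : ℝ) ^ (-s)) →
      (∀ m ∈ 𝓜, ∀ r : ZMod m, P {ω | X m ω = r} ≤ ENNReal.ofReal (A * (m : ℝ) ^ (-θ))) →
      1 - η < (θ - s) * τ →
      ∀ᵐ ω ∂P, {x : ℕ × ℕ | x.1 ∈ 𝓜 ∧ Exceptional ε x.2 ∧ (x.2 : ℝ) ^ τ ≤ x.1 ∧ φ x.1 x.2 = X x.1 ω}.Finite := by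
  classical
  obtain ⟨η₀, hη₀, C, hC⟩ := count ε hε
  have hm0 : 0 < min η₀ 1 := lt_min hη₀ one_pos
  refine ⟨min η₀ 1, hm0, min_le_right _ _, ?_⟩
  intro 𝓜 s θ τ A Ω _ P X φ h0 hs hsum hX hτ
  refine Pool.Agent.R728.RC.finite_core (H := fun Q : ℕ => (Q : ℝ)) (Bad := {Q | Exceptional ε Q})
    (κ := 1 - min η₀ 1) (fun Q hQ => ?_) (by have := min_le_right η₀ 1; linarith) (fun ε' hε' => ?_) h0 hs hsum hX hτ
  · have : 1 ≤ Q := hQ.1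
    exact_mod_cast this
  · refine ⟨|C|, fun B hB => ?_⟩
    have hfl : (1 : ℝ) ≤ (⌊B⌋₊ : ℝ) := by
      exact_mod_cast (Nat.one_le_floor_iff B).2 hB
    have hflB : (⌊B⌋₊ : ℝ) ≤ B := Nat.floor_le (by linarith)
    have hsub : {Q : ℕ | Q ∈ {Q | Exceptional ε Q} ∧ (Q : ℝ) ≤ B} ⊆
        ((Ioc 0 ⌊B⌋₊).filter (fun k => k ∈ Bad ε) : Finset ℕ) := by
      rintro Q ⟨hQ, hQB⟩
      rw [mem_coe, mem_filter, mem_Ioc]
      exact ⟨⟨hQ.1, Nat.le_floor hQB⟩, Or.inr hQ⟩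
    refine ⟨(finite_toSet _).subset hsub, ?_⟩
    have h1 := Set.ncard_le_ncard hsub (finite_toSet _)
    rw [Set.ncard_coe_finset] at h1
    have h2 : (({Q : ℕ | Q ∈ {Q | Exceptional ε Q} ∧ (Q : ℝ) ≤ B}.ncard : ℕ) : ℝ) ≤ C * (⌊B⌋₊ : ℝ) ^ (1 - η₀) :=
      le_trans (by exact_mod_cast h1) (hC ⌊B⌋₊)
    refine h2.trans ?_
    calc C * (⌊B⌋₊ : ℝ) ^ (1 - η₀) ≤ |C| * (⌊B⌋₊ : ℝ) ^ (1 - η₀) :=
          mul_le_mul_of_nonneg_right (le_abs_self C) (by positivity)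
      _ ≤ |C| * (⌊B⌋₊ : ℝ) ^ (1 - min η₀ 1 + ε') := by
          apply mul_le_mul_of_nonneg_left _ (abs_nonneg C)
          apply Real.rpow_le_rpow_of_exponent_le hfl
          have := min_le_left η₀ 1
          linarith
      _ ≤ |C| * B ^ (1 - min η₀ 1 + ε') := by
          apply mul_le_mul_of_nonneg_left _ (abs_nonneg C)
          apply Real.rpow_le_rpow (by linarith) hflB
          have := min_le_right η₀ 1
          linarith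

/-- the residue of `⌊m α⌋` modulo `m` is uniformly distributed -/
lemma floor_law (m : ℕ) (hm : 0 < m) (r : ZMod m) :
    (volume.restrict (Set.Ico (0 : ℝ) 1)) {α : ℝ | ((⌊(m : ℝ) * α⌋ : ℤ) : ZMod m) = r} ≤
      ENNReal.ofReal (1 * (m : ℝ) ^ (-(1 : ℝ))) := by
  haveI : NeZero m := ⟨hm.ne'⟩
  have hmR : (0 : ℝ) < m := by exact_mod_cast hm
  rw [Measure.restrict_apply' measurableSet_Ico]
  have hsub : {α : ℝ | ((⌊(m : ℝ) * α⌋ : ℤ) : ZMod m) = r} ∩ Set.Ico (0 : ℝ) 1 ⊆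
      Set.Ico ((r.val : ℝ) / m) (((r.val : ℝ) + 1) / m) := by
    rintro α ⟨h1, h2, h3⟩
    have hz0 : 0 ≤ ⌊(m : ℝ) * α⌋ := Int.floor_nonneg.2 (by positivity)
    have hz1 : ⌊(m : ℝ) * α⌋ < m := by
      rw [Int.floor_lt]
      push_cast
      nlinarith
    have hr : ((r.val : ℤ) : ZMod m) = r := by
      rw [Int.cast_natCast, ZMod.natCast_zmod_val]
    have h4 : (((⌊(m : ℝ) * α⌋ : ℤ)) : ZMod m) = ((r.val : ℤ) : ZMod m) := by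
      rw [hr]
      exact h1
    rw [ZMod.intCast_eq_intCast_iff_dvd_sub] at h4
    have hrv : (r.val : ℤ) < m := by exact_mod_cast ZMod.val_lt r
    have hrv0 : (0 : ℤ) ≤ r.val := Int.natCast_nonneg _
    have h5 : (r.val : ℤ) - ⌊(m : ℝ) * α⌋ = 0 := Int.eq_zero_of_abs_lt_dvd h4 (by
      rw [abs_lt]
      constructor <;> omega)
    have h6 : (⌊(m : ℝ) * α⌋ : ℤ) = (r.val : ℤ) := by omega
    have h7 := Int.floor_le ((m : ℝ) * α)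
    have h8 := Int.lt_floor_add_one ((m : ℝ) * α)
    rw [h6] at h7 h8
    push_cast at h7 h8
    constructor
    · rw [div_le_iff₀ hmR]
      linarith
    · rw [lt_div_iff₀ hmR]
      linarith
  refine (measure_mono hsub).trans ?_
  rw [Real.volume_Ico]
  apply ENNReal.ofReal_le_ofReal
  rw [Real.rpow_neg_one, one_mul, add_div]
  simp

/-- for all large `m` in `𝓜`, every `Q ≥ 1` with `Q ^ τ ≤ m` and `Q ≡ x m` modulo `m` satisfies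
`G(y, Q) ≥ y (log Q - 1/2 log y - ε log y)` for all real `y ≥ Q` -/
def AllGood (𝓜 : Set ℕ) (x : ∀ m : ℕ, ZMod m) (ε τ : ℝ) : Prop :=
  ∃ m₀ : ℕ, ∀ m ∈ 𝓜, m₀ ≤ m → ∀ Q : ℕ, 1 ≤ Q → (Q : ℝ) ^ τ ≤ m → (Q : ZMod m) = x m →
    ∀ y : ℝ, (Q : ℝ) ≤ y → y * (Real.log Q - 1 / 2 * Real.log y - ε * Real.log y) ≤ G y Q

lemma allGood_of_finite {𝓜 : Set ℕ} {x : ∀ m : ℕ, ZMod m} {ε ε' τ : ℝ} (hε : ε' ≤ ε)
    (h : {p : ℕ × ℕ | p.1 ∈ 𝓜 ∧ Exceptional ε' p.2 ∧ (p.2 : ℝ) ^ τ ≤ p.1 ∧ (p.2 : ZMod p.1) = x p.1}.Finite) :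
    AllGood 𝓜 x ε τ := by
  obtain ⟨b, hb⟩ := (h.image Prod.fst).bddAbove
  refine ⟨b + 1, fun m hm hmb Q hQ hQm hQx y hy => ?_⟩
  by_contra hcon
  push Not at hcon
  have hex : Exceptional ε' Q := exc_mono hε ⟨hQ, y, hy, hcon⟩
  have := hb ⟨(m, Q), ⟨hm, hex, hQm, hQx⟩, rfl⟩
  simp only at this
  omega

lemma part2 (𝓜 : Set ℕ) (A : ℝ) (Ω : Type) [MeasurableSpace Ω] (P : Measure Ω) (X : ∀ m : ℕ, Ω → ZMod m)
    (h0 : ∀ m ∈ 𝓜, 0 < m) (hsum : ∀ s : ℝ, 0 < s → Summable fun m : 𝓜 => ((m : ℕ) : ℝ) ^ (-s))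
    (hX : ∀ m ∈ 𝓜, ∀ r : ZMod m, P {ω | X m ω = r} ≤ ENNReal.ofReal (A * (m : ℝ) ^ (-(1 : ℝ)))) :
    ∀ᵐ ω ∂P, ∀ ε : ℝ, 0 < ε → ∃ τ : ℝ, 0 < τ ∧ τ < 1 ∧ AllGood 𝓜 (fun m => X m ω) ε τ := by
  have hall : ∀ j : ℕ, ∃ τ : ℝ, 0 < τ ∧ τ < 1 ∧ ∀ᵐ ω ∂P, {p : ℕ × ℕ | p.1 ∈ 𝓜 ∧
      Exceptional (1 / ((j : ℝ) + 1)) p.2 ∧ (p.2 : ℝ) ^ τ ≤ p.1 ∧ (p.2 : ZMod p.1) = X p.1 ω}.Finite := by
    intro j
    obtain ⟨η, hη, hη1, h⟩ := part1 (1 / ((j : ℝ) + 1)) (by positivity)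
    refine ⟨1 - η / 2, by linarith, by linarith, ?_⟩
    refine h 𝓜 (η / 4) 1 (1 - η / 2) A Ω P X (fun m Q => (Q : ZMod m)) h0 (by linarith)
      (hsum _ (by linarith)) hX ?_
    nlinarith
  choose τ hτ0 hτ1 hae using hall
  filter_upwards [ae_all_iff.2 hae] with ω hω ε hε
  obtain ⟨j, hj⟩ := exists_nat_one_div_lt hε
  exact ⟨τ j, hτ0 j, hτ1 j, allGood_of_finite hj.le (hω j)⟩

/-- **Theorem.** Let `𝓜` be a set of positive integers and let `X m`, `m ∈ 𝓜`, be random residues modulo `m`.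
(1) For every `ε > 0` there is `η ∈ (0, 1]` such that: if `∑ m ^ (-s) < ∞`, `P (X m = r) ≤ A m ^ (-θ)` for all `m` in `𝓜` and
all `r`, `s < θ` and `1 - η < (θ - s) τ`, and if `φ m` are any maps from the positive integers to the residues modulo `m`
(for instance the reduction), then almost surely there are only finitely many pairs of `m` in `𝓜` and exceptional `Q` with
`Q ^ τ ≤ m` and `φ m Q = X m`. Here `Q` is exceptional if `G(x,Q) < x (log Q - 1/2 log x - ε log x)` for some real `x ≥ Q`.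
(2) If `∑ m ^ (-s) < ∞` for all `s > 0` and `P (X m = r) ≤ A / m`, then almost surely for every `ε > 0` there is `τ < 1` such
that for all large `m` in `𝓜` ALL `Q ≥ 1` with `Q ^ τ ≤ m` and `Q ≡ X m` modulo `m` satisfy
`G(x,Q) ≥ x (log Q - 1/2 log x - ε log x)` for ALL real `x ≥ Q`.
(3) For almost all `α` in `[0, 1)` and all `b ≥ 2` this is true for the powers `m` of `b` and `X m = ⌊m α⌋`.
(4) The sum is finite for the squareful numbers if `s > 1/2`, and for the powers of `b ≥ 2` if `s > 0`. -/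
theorem result :
    (∀ ε : ℝ, 0 < ε → ∃ η : ℝ, 0 < η ∧ η ≤ 1 ∧
      ∀ (𝓜 : Set ℕ) (s θ τ A : ℝ) (Ω : Type) [MeasurableSpace Ω] (P : Measure Ω) (X : ∀ m : ℕ, Ω → ZMod m)
        (φ : ∀ m : ℕ, ℕ → ZMod m), (∀ m ∈ 𝓜, 0 < m) → s < θ →
        (Summable fun m : 𝓜 => ((m : ℕ) : ℝ) ^ (-s)) →
        (∀ m ∈ 𝓜, ∀ r : ZMod m, P {ω | X m ω = r} ≤ ENNReal.ofReal (A * (m : ℝ) ^ (-θ))) →
        1 - η < (θ - s) * τ →
        ∀ᵐ ω ∂P, {x : ℕ × ℕ | x.1 ∈ 𝓜 ∧ Exceptional ε x.2 ∧ (x.2 : ℝ) ^ τ ≤ x.1 ∧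
          φ x.1 x.2 = X x.1 ω}.Finite) ∧
    (∀ (𝓜 : Set ℕ) (A : ℝ) (Ω : Type) [MeasurableSpace Ω] (P : Measure Ω) (X : ∀ m : ℕ, Ω → ZMod m),
      (∀ m ∈ 𝓜, 0 < m) → (∀ s : ℝ, 0 < s → Summable fun m : 𝓜 => ((m : ℕ) : ℝ) ^ (-s)) →
      (∀ m ∈ 𝓜, ∀ r : ZMod m, P {ω | X m ω = r} ≤ ENNReal.ofReal (A * (m : ℝ) ^ (-(1 : ℝ)))) →
      ∀ᵐ ω ∂P, ∀ ε : ℝ, 0 < ε → ∃ τ : ℝ, 0 < τ ∧ τ < 1 ∧ AllGood 𝓜 (fun m => X m ω) ε τ) ∧
    (∀ᵐ α : ℝ, 0 ≤ α → α < 1 → ∀ b : ℕ, 2 ≤ b → ∀ ε : ℝ, 0 < ε → ∃ τ : ℝ, 0 < τ ∧ τ < 1 ∧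
      AllGood {m : ℕ | ∃ k : ℕ, m = b ^ k} (fun m => ((⌊(m : ℝ) * α⌋ : ℤ) : ZMod m)) ε τ) ∧
    (∀ s : ℝ, 1 / 2 < s →
      Summable fun m : {m : ℕ | 0 < m ∧ ∀ p : ℕ, p.Prime → p ∣ m → p ^ 2 ∣ m} => ((m : ℕ) : ℝ) ^ (-s)) ∧
    (∀ b : ℕ, 2 ≤ b → ∀ s : ℝ, 0 < s →
      Summable fun m : {m : ℕ | ∃ k : ℕ, m = b ^ k} => ((m : ℕ) : ℝ) ^ (-s)) := by
  refine ⟨part1, fun 𝓜 A Ω _ P X h0 hsum hX => part2 𝓜 A Ω P X h0 hsum hX, ?_,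
    fun s hs => Pool.Agent.R728.RC.summable_squareful hs, fun b hb s hs => Pool.Agent.R728.RC.summable_powers hb hs⟩
  have h1 : ∀ b : ℕ, 2 ≤ b → ∀ᵐ α ∂(volume.restrict (Set.Ico (0 : ℝ) 1)), ∀ ε : ℝ, 0 < ε → ∃ τ : ℝ, 0 < τ ∧ τ < 1 ∧
      AllGood {m : ℕ | ∃ k : ℕ, m = b ^ k} (fun m => ((⌊(m : ℝ) * α⌋ : ℤ) : ZMod m)) ε τ := by
    intro b hb
    have hpos : ∀ m ∈ {m : ℕ | ∃ k : ℕ, m = b ^ k}, 0 < m := by
      rintro m ⟨k, rfl⟩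
      exact Nat.pow_pos (by omega)
    exact part2 {m : ℕ | ∃ k : ℕ, m = b ^ k} 1 ℝ (volume.restrict (Set.Ico (0 : ℝ) 1))
      (fun m α => ((⌊(m : ℝ) * α⌋ : ℤ) : ZMod m)) hpos
      (fun s hs => Pool.Agent.R728.RC.summable_powers hb hs) (fun m hm r => floor_law m (hpos m hm) r)
  have h2 : ∀ᵐ α ∂(volume.restrict (Set.Ico (0 : ℝ) 1)), ∀ b : ℕ, 2 ≤ b → ∀ ε : ℝ, 0 < ε → ∃ τ : ℝ, 0 < τ ∧ τ < 1 ∧
      AllGood {m : ℕ | ∃ k : ℕ, m = b ^ k} (fun m => ((⌊(m : ℝ) * α⌋ : ℤ) : ZMod m)) ε τ := by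
    rw [ae_all_iff]
    intro b
    by_cases hb : 2 ≤ b
    · filter_upwards [h1 b hb] with α hα _ using hα
    · exact Eventually.of_forall fun α h => absurd h hb
  rw [ae_restrict_iff' measurableSet_Ico] at h2
  filter_upwards [h2] with α hα h3 h4 using hα ⟨h3, h4⟩

end Pool.Agent.Results.MP_5dd4bb_nt.RandomResidues
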